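import Pool.Agent.Helper43.QH.Desc

set_option autoImplicit false
set_option linter.unusedSectionVars false

/-!
# QA-3: descent of surjectivity along a regular sequence
-/

open RingTheory.Sequence
open scoped Pointwise

namespace Pool.Agent.Helper43.QH

section

variable {R : Type} [CommRing R] [IsLocalRing R] [IsNoetherianRing R]

/-- `Hom(E, N)` is finitely generated. -/
theorem finite_homR (E N : Type) [AddCommGroup E] [Module R E]
    [AddCommGroup N] [Module R N] [Module.Finite R E] [Module.Finite R N] :
    Module.Finite R (E →ₗ[R] N) := by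
  obtain ⟨n, π, hπ⟩ := Module.Finite.exists_fin' R E
  let c : (E →ₗ[R] N) →ₗ[R] (Fin n → N) :=
    { toFun := fun f i => f (π (Pi.single i 1))
      map_add' := fun f g => rfl
      map_smul' := fun a f => rfl }
  refine Module.Finite.of_injective c ?_
  intro f g hfg
  have h1 : f.comp π = g.comp π := by
    refine LinearMap.pi_ext' fun i => ?_
    apply LinearMap.ext_ring
    exact congrFun hfg i
  exact (LinearMap.cancel_right hπ).1 h1

/-- Proof. Induction on `rs` generalizing `N`, `X`, `ψ`, exactly as in `injective_of_quot`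
(`Pool/Agent/Helper43/QH/Desc.lean`, same induced map `ψ' : X / r X → Hom(E, N / r N)`). `rs = []`:
the hypothesis `hsurj` (with `N ⧸ 0`) says that `ψ` is surjective. For `r :: rs` the two hypotheses
hold for `ψ'`, `N / r N`, so `ψ'` is surjective. Hence for `g : E → N` there is `z` with
`g - ψ z ∈ r Hom(E, N)` (a map with values in `r N` is `r` times a map, as `r` is regular on `N`):
`range ψ + m Hom(E, N) = Hom(E, N)`, and the lemma of Nakayama applies (`Hom(E, N)` is Noetherian,
since `E`, `N` are finite). -/
theorem surjective_of_quot (rs : List R) : ∀ (E N X : Type) [AddCommGroup E] [Module R E]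
    [AddCommGroup N] [Module R N] [AddCommGroup X] [Module R X] [Module.Finite R E]
    [Module.Finite R N] [Module.Finite R X]
    (ψ : X →ₗ[R] (E →ₗ[R] N)), (∀ r ∈ rs, r ∈ IsLocalRing.maximalIdeal R) →
    IsWeaklyRegular N rs →
    (∀ g : E →ₗ[R] (N ⧸ (Ideal.ofList rs • ⊤ : Submodule R N)), ∃ z : X,
      ∀ e, Submodule.Quotient.mk (ψ z e) = g e) → Function.Surjective ψ := by
  induction rs with
  | nil =>
    intro E N X _ _ _ _ _ _ _ _ _ ψ _ _ h g
    obtain ⟨z, hz⟩ := h ((Submodule.mkQ _).comp g)
    refine ⟨z, LinearMap.ext fun e => ?_⟩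
    have h1 := hz e
    rw [LinearMap.comp_apply, Submodule.mkQ_apply, Submodule.Quotient.eq, Ideal.ofList_nil,
      Submodule.bot_smul, Submodule.mem_bot, sub_eq_zero] at h1
    exact h1
  | cons r rs ih =>
    intro E N X _ _ _ _ _ _ _ _ _ ψ hm hreg h
    obtain ⟨hr, hrs⟩ := (isWeaklyRegular_cons_iff N r rs).1 hreg
    -- the induced map
    let g : X →ₗ[R] (E →ₗ[R] QuotSMulTop r N) :=
      { toFun := fun z => (Submodule.mkQ (r • ⊤ : Submodule R N)).comp (ψ z)
        map_add' := fun a b => by
          rw [map_add, LinearMap.comp_add]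
        map_smul' := fun a b => by
          rw [map_smul, LinearMap.comp_smul, RingHom.id_apply] }
    have hg : (r • ⊤ : Submodule R X) ≤ LinearMap.ker g := by
      intro z hz
      rw [Submodule.mem_smul_pointwise_iff_exists] at hz
      obtain ⟨y, _, rfl⟩ := hz
      rw [LinearMap.mem_ker]
      refine LinearMap.ext fun e => ?_
      change Submodule.mkQ (r • ⊤ : Submodule R N) (ψ (r • y) e) = 0
      rw [map_smul, LinearMap.smul_apply, Submodule.mkQ_apply, Submodule.Quotient.mk_eq_zero]
      exact Submodule.smul_mem_pointwise_smul _ _ _ trivial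
    -- the identification of the double quotient
    let θ₁ : QuotSMulTop r N →ₗ[R] (N ⧸ (Ideal.ofList (r :: rs) • ⊤ : Submodule R N)) :=
      (r • ⊤ : Submodule R N).liftQ (Submodule.mkQ _) (by
        intro n hn
        rw [Submodule.mem_smul_pointwise_iff_exists] at hn
        obtain ⟨y, _, rfl⟩ := hn
        rw [LinearMap.mem_ker, Submodule.mkQ_apply, Submodule.Quotient.mk_eq_zero]
        refine Submodule.smul_mem_smul ?_ trivial
        rw [Ideal.ofList_cons]
        exact Ideal.mem_sup_left (Ideal.mem_span_singleton_self r))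
    have hθ₁ : ∀ n, θ₁ (Submodule.mkQ (r • ⊤ : Submodule R N) n) = Submodule.Quotient.mk n :=
      fun n => rfl
    let θ : (QuotSMulTop r N ⧸ (Ideal.ofList rs • ⊤ : Submodule R (QuotSMulTop r N))) →ₗ[R]
        (N ⧸ (Ideal.ofList (r :: rs) • ⊤ : Submodule R N)) :=
      (Ideal.ofList rs • ⊤ : Submodule R (QuotSMulTop r N)).liftQ θ₁ (by
        intro n' hn'
        obtain ⟨n, rfl⟩ := Submodule.mkQ_surjective _ n'
        rw [mk_mem_quot_iff, ← Ideal.ofList_cons] at hn'
        rw [LinearMap.mem_ker, hθ₁, Submodule.Quotient.mk_eq_zero]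
        exact hn')
    have hθ : ∀ n : N, θ (Submodule.Quotient.mk (Submodule.mkQ (r • ⊤ : Submodule R N) n)) =
        Submodule.Quotient.mk n := fun n => rfl
    have hψ' : Function.Surjective ((r • ⊤ : Submodule R X).liftQ g hg) := by
      refine ih E (QuotSMulTop r N) (QuotSMulTop r X) ((r • ⊤ : Submodule R X).liftQ g hg)
        (fun s hs => hm s (List.mem_cons_of_mem _ hs)) hrs ?_
      intro g'
      obtain ⟨z, hz⟩ := h (θ.comp g')
      refine ⟨Submodule.mkQ _ z, fun e => ?_⟩
      have h1 := hz e
      obtain ⟨n', hn'⟩ := Submodule.Quotient.mk_surjective _ (g' e)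
      obtain ⟨n, rfl⟩ := Submodule.mkQ_surjective _ n'
      rw [LinearMap.comp_apply, ← hn', hθ, Submodule.Quotient.eq] at h1
      rw [← hn', Submodule.mkQ_apply, Submodule.liftQ_apply]
      change (Submodule.Quotient.mk (Submodule.mkQ (r • ⊤ : Submodule R N) (ψ z e)) :
        QuotSMulTop r N ⧸ (Ideal.ofList rs • ⊤ : Submodule R (QuotSMulTop r N))) = _
      rw [Submodule.Quotient.eq, ← map_sub, mk_mem_quot_iff, ← Ideal.ofList_cons]
      exact h1
    rw [← LinearMap.range_eq_top, ← top_le_iff]
    have := finite_homR (R := R) E N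
    refine Submodule.le_of_le_smul_of_le_jacobson_bot (I := IsLocalRing.maximalIdeal R)
      Module.Finite.fg_top (IsLocalRing.maximalIdeal_le_jacobson _) ?_
    intro f _
    obtain ⟨z', hz'⟩ := hψ' ((Submodule.mkQ (r • ⊤ : Submodule R N)).comp f)
    obtain ⟨z, rfl⟩ := Submodule.mkQ_surjective _ z'
    have h2 : ∀ e, ∃ n : N, r • n = f e - ψ z e := by
      intro e
      have h3 := LinearMap.congr_fun hz' e
      rw [Submodule.mkQ_apply, Submodule.liftQ_apply] at h3
      have h4 : Submodule.mkQ (r • ⊤ : Submodule R N) (ψ z e) =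
          Submodule.mkQ (r • ⊤ : Submodule R N) (f e) := h3
      rw [Submodule.mkQ_apply, Submodule.mkQ_apply, eq_comm, Submodule.Quotient.eq,
        Submodule.mem_smul_pointwise_iff_exists] at h4
      obtain ⟨n, _, hn⟩ := h4
      exact ⟨n, hn⟩
    choose u hu using h2
    let v : E →ₗ[R] N :=
      { toFun := u
        map_add' := fun a b => by
          apply hr
          change r • u (a + b) = r • (u a + u b)
          rw [smul_add, hu, hu, hu, map_add, map_add]
          abel
        map_smul' := fun c a => by
          apply hr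
          change r • u (c • a) = r • ((RingHom.id R) c • u a)
          rw [hu, RingHom.id_apply, smul_comm r c, hu, map_smul, map_smul, smul_sub] }
    have h5 : f = ψ z + r • v := by
      refine LinearMap.ext fun e => ?_
      rw [LinearMap.add_apply, LinearMap.smul_apply]
      change f e = ψ z e + r • u e
      rw [hu]
      abel
    rw [h5]
    exact Submodule.add_mem_sup ⟨z, rfl⟩
      (Submodule.smul_mem_smul (hm r List.mem_cons_self) trivial)

end

end Pool.Agent.Helper43.QH
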