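import Pool.Agent.Helper43.QA.PsiGen
import Pool.Agent.Helper43.QA.DescS
import Pool.Agent.Helper43.QL.BaseChange2
import Pool.Agent.Helper43.QH.Main

set_option autoImplicit false
set_option linter.unusedSectionVars false

/-!
# QA-4: reduction of the Auslander-Reiten conjecture over Gorenstein rings to height one (Araya)
-/

open CategoryTheory Abelian RingTheory.Sequence TensorProduct

namespace Pool.Agent.Helper43.QH

open Pool.Agent.Helper35.AR Pool.Agent.Helper35.ARC2

section

variable {R : Type} [CommRing R]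

/-- The image of the evaluation map `M^* ⊗ M → End M` is a two-sided ideal: `tm f m` goes to
`x ↦ f x • m`, so `e ∘ (f ⊗ m) = f ⊗ e m`. -/
theorem exists_phi_comp {M : Type} [AddCommGroup M] [Module R M] (w : XX R M) (e : M →ₗ[R] M) :
    ∃ w' : XX R M, phi R M w' = e.comp (phi R M w) := by
  obtain ⟨n, f, m, rfl⟩ := exists_sum_tm w
  refine ⟨∑ i, tm (f i) (e (m i)), ?_⟩
  refine LinearMap.ext fun x => ?_
  rw [LinearMap.comp_apply, map_sum, map_sum, LinearMap.sum_apply, LinearMap.sum_apply, map_sum]
  refine Finset.sum_congr rfl fun i _ => ?_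
  rw [phi_tm, phi_tm, map_smul]

/-- Let `psi : X → Hom(H, R)` be bijective, `phi : X → H` injective, `x`, `y` an `R`-regular pair,
`x` regular on `H`. If `x h`, `y h` are in the image of `phi` then so is `h`. Proof. `x h = phi u`,
`y h = phi v`, so `y u = x v`. For every `e ∈ H`, `y psi(u)(e) = x psi(v)(e)`, so
`psi(u)(e) ∈ x R` (`y` is regular on `R / x R`); as `x` is regular on `R`, `psi u = x g` with
`g : H → R`, `g = psi u'`, `u = x u'`, `x (h - phi u') = 0`. -/
theorem mem_range_of_pair {X H : Type} [AddCommGroup X] [Module R X] [AddCommGroup H] [Module R H]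
    (ψ : X →ₗ[R] (H →ₗ[R] R)) (hψ : Function.Bijective ψ) (φ : X →ₗ[R] H)
    (hφ : Function.Injective φ) {x y : R} (hxy : IsWeaklyRegular R [x, y])
    (hx : IsSMulRegular H x) {h : H} (h1 : ∃ u, φ u = x • h) (h2 : ∃ v, φ v = y • h) :
    ∃ u, φ u = h := by
  obtain ⟨u, hu⟩ := h1
  obtain ⟨v, hv⟩ := h2
  obtain ⟨hxr, hy⟩ := (isWeaklyRegular_cons_iff R x [y]).1 hxy
  have hyr : IsSMulRegular (QuotSMulTop x R) y := ((isWeaklyRegular_cons_iff _ y []).1 hy).1
  have huv : y • u = x • v := by
    apply hφ
    rw [map_smul, map_smul, hu, hv, smul_comm]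
  have hdiv : ∀ e : H, ∃ t : R, x • t = ψ u e := by
    intro e
    have h3 : y • ψ u e = x • ψ v e := by
      have h0 : y • ψ u = x • ψ v := by
        rw [← map_smul, ← map_smul, huv]
      exact LinearMap.congr_fun h0 e
    have h4 : y • (Submodule.Quotient.mk (ψ u e) : QuotSMulTop x R) =
        y • (0 : QuotSMulTop x R) := by
      rw [smul_zero, ← Submodule.Quotient.mk_smul, h3, Submodule.Quotient.mk_eq_zero]
      exact Submodule.smul_mem_pointwise_smul _ _ _ trivial
    have h5 := hyr h4
    rw [Submodule.Quotient.mk_eq_zero, Submodule.mem_smul_pointwise_iff_exists] at h5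
    obtain ⟨t, _, ht⟩ := h5
    exact ⟨t, ht⟩
  choose t ht using hdiv
  let g : H →ₗ[R] R :=
    { toFun := t
      map_add' := fun a b => by
        apply hxr
        change x • t (a + b) = x • (t a + t b)
        rw [smul_add, ht, ht, ht, map_add]
      map_smul' := fun c a => by
        apply hxr
        change x • t (c • a) = x • ((RingHom.id R) c • t a)
        rw [ht, RingHom.id_apply, smul_comm x c, ht, map_smul] }
  obtain ⟨u', hu'⟩ := hψ.2 g
  have h6 : x • u' = u := by
    apply hψ.1
    rw [map_smul, hu']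
    refine LinearMap.ext fun e => ?_
    rw [LinearMap.smul_apply]
    exact ht e
  refine ⟨u', ?_⟩
  apply hx
  change x • φ u' = x • h
  rw [← map_smul, h6, hu]

/-- Proof. `I = (xs)`. `hom_quot_lift` gives `H1`, `H1'`, `H2`, `H2'` as in the theorem `core` of
`Pool/Agent/Helper43/QH/Main.lean`. `psi` is injective (`mem_of_psi_gor`, `injective_of_quot`) and
surjective (`surj_of_psi_gor`, `surjective_of_quot`). `phi` is injective: `psi_eq_zero_of_phi`
(`GenFree`: an associated prime of `R` contains no regular pair, as it consists of zero divisors).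
Suppose `phi` is not surjective, `C = End M ⧸ range phi`; it has an associated prime `p = ann c`
(`associatedPrimes.nonempty`, `IsAssociatedPrime`), `c` the class of `h`. If `p` contains a regular
pair `x`, `y` then `h ∈ range phi` by `mem_range_of_pair` (`x` is regular on `End M` by `htor`).
Otherwise `s • id = phi w` for some `s ∉ p`, so `s h = h ∘ phi w ∈ range phi`
(`exists_phi_comp`), `s ∈ p`. So `phi` is surjective; `projective_of_phi`. -/
theorem araya_core [IsNoetherianRing R] [IsLocalRing R] [HasExt.{0} (ModuleCat.{0} R)]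
    (xs : List R) (hxm : ∀ x ∈ xs, x ∈ IsLocalRing.maximalIdeal R) (hregR : IsWeaklyRegular R xs)
    (hI : IsGorIdeal (Ideal.ofList xs))
    (M : Type) [AddCommGroup M] [Module R M] [Module.Finite R M] (hregM : IsWeaklyRegular M xs)
    (htor : ∀ x : R, IsSMulRegular R x → IsSMulRegular M x)
    (hMR : ∀ i : ℕ, 0 < i → Subsingleton (Ext (ModuleCat.of R M) (ModuleCat.of R R) i))
    (hMM : ∀ i : ℕ, 0 < i → Subsingleton (Ext (ModuleCat.of R M) (ModuleCat.of R M) i))
    (hgen : ∀ (p : Ideal R) [p.IsPrime], (∀ x ∈ p, ∀ y ∈ p, ¬ IsWeaklyRegular R [x, y]) →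
      ∃ s ∉ p, ∃ w : XX R M, phi R M w = s • LinearMap.id) : Module.Projective R M := by
  set I := Ideal.ofList xs with hIdef
  -- lifts of homomorphisms
  have hR1 := hom_quot_lift (M := M) xs R hregR hMR
  have hM1 := hom_quot_lift (M := M) xs M hregM hMM
  have htop : (I • ⊤ : Submodule R R) = I := smul_top_ideal I
  have H1 : ∀ f : M →ₗ[R] (R ⧸ I), ∃ g : M →ₗ[R] R, ∀ m, Ideal.Quotient.mk I (g m) = f m := by
    intro f
    obtain ⟨g, hg⟩ := hR1.1 ((Submodule.quotEquivOfEq _ _ htop).symm.toLinearMap.comp f)
    refine ⟨g, fun m => ?_⟩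
    have h1 := congrArg (Submodule.quotEquivOfEq _ _ htop) (hg m)
    rw [Submodule.quotEquivOfEq_mk, LinearMap.comp_apply, LinearEquiv.coe_coe,
      LinearEquiv.apply_symm_apply] at h1
    exact h1
  have H1' : ∀ g : M →ₗ[R] R, (∀ m, g m ∈ I) → g ∈ (I • ⊤ : Submodule R (M →ₗ[R] R)) := by
    intro g hg
    refine hR1.2 g fun m => ?_
    rw [← hIdef, htop]
    exact hg m
  have H2 := hM1.1
  have H2' := hM1.2
  -- psi is bijective
  have hpsi : Function.Injective (psi R M) := by
    refine injective_of_quot xs (M →ₗ[R] M) R (XX R M) (psi R M) hxm hregR ?_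
    intro z hz
    refine mem_of_psi_gor hI H1 H1' H2 z fun e => ?_
    have := hz e
    rwa [← hIdef, htop] at this
  have hfinE : Module.Finite R (M →ₗ[R] M) := finite_homR M M
  have hpsi2 : Function.Surjective (psi R M) := by
    refine surjective_of_quot xs (M →ₗ[R] M) R (XX R M) (psi R M) hxm hregR ?_
    intro g
    obtain ⟨z, hz⟩ := surj_of_psi_gor hI H1 H2'
      ((Submodule.quotEquivOfEq _ _ htop).toLinearMap.comp g)
    refine ⟨z, fun e => ?_⟩
    have h1 := congrArg (Submodule.quotEquivOfEq _ _ htop).symm (hz e)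
    rw [LinearMap.comp_apply, LinearEquiv.coe_coe, LinearEquiv.symm_apply_apply] at h1
    exact h1
  -- phi is injective
  have hgenF : GenFree R M := by
    intro p hpa
    have hpa' : (⊥ : Submodule R R).IsAssociatedPrime p := hpa
    obtain ⟨hp, a, ha⟩ := Submodule.isAssociatedPrime_iff.1 hpa'
    refine hgen p fun x hx y hy hxy => ?_
    have hxr : IsSMulRegular R x := ((isWeaklyRegular_cons_iff R x [y]).1 hxy).1
    have h1 : x • a = 0 := by
      rw [ha, Submodule.mem_colon_singleton, Submodule.mem_bot] at hx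
      exact hx
    have h2 : a = 0 := by
      apply hxr
      change x • a = x • 0
      rw [h1, smul_zero]
    apply hp.ne_top
    rw [Ideal.eq_top_iff_one, ha, Submodule.mem_colon_singleton, Submodule.mem_bot, h2, smul_zero]
  have hphi : Function.Injective (phi R M) := by
    rw [injective_iff_map_eq_zero]
    intro z hz
    apply hpsi
    rw [psi_eq_zero_of_phi hgenF hz, map_zero]
  -- phi is surjective
  have hsurj : Function.Surjective (phi R M) := by
    rw [← LinearMap.range_eq_top]
    by_contra hne
    have hnt : Nontrivial ((M →ₗ[R] M) ⧸ LinearMap.range (phi R M)) :=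
      Submodule.Quotient.nontrivial_iff.2 hne
    obtain ⟨p, hpa⟩ := associatedPrimes.nonempty R ((M →ₗ[R] M) ⧸ LinearMap.range (phi R M))
    have hpa' : (⊥ : Submodule R ((M →ₗ[R] M) ⧸ LinearMap.range (phi R M))).IsAssociatedPrime p :=
      hpa
    obtain ⟨hp, c, hc⟩ := Submodule.isAssociatedPrime_iff.1 hpa'
    obtain ⟨h, rfl⟩ := Submodule.Quotient.mk_surjective _ c
    have hmem : ∀ a : R, a ∈ p ↔ ∃ w, phi R M w = a • h := by
      intro a
      rw [hc, Submodule.mem_colon_singleton, Submodule.mem_bot, ← Submodule.Quotient.mk_smul,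
        Submodule.Quotient.mk_eq_zero, LinearMap.mem_range]
    have hnot : ¬ ∃ w, phi R M w = h := by
      intro hw
      apply hp.ne_top
      rw [Ideal.eq_top_iff_one, hmem, one_smul]
      exact hw
    by_cases hpair : ∀ x ∈ p, ∀ y ∈ p, ¬ IsWeaklyRegular R [x, y]
    · obtain ⟨s, hs, w, hw⟩ := hgen p hpair
      apply hs
      rw [hmem]
      obtain ⟨w', hw'⟩ := exists_phi_comp w h
      refine ⟨w', ?_⟩
      rw [hw', hw, LinearMap.comp_smul, LinearMap.comp_id]
    · push Not at hpair
      obtain ⟨x, hx, y, hy, hxy⟩ := hpair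
      have hxr : IsSMulRegular R x := ((isWeaklyRegular_cons_iff R x [y]).1 hxy).1
      have hxM := htor x hxr
      have hxE : IsSMulRegular (M →ₗ[R] M) x := by
        intro a b hab
        refine LinearMap.ext fun m => hxM ?_
        exact LinearMap.congr_fun hab m
      exact hnot (mem_range_of_pair (psi R M) ⟨hpsi, hpsi2⟩ (phi R M) hphi hxy hxE
        ((hmem x).1 hx) ((hmem y).1 hy))
  obtain ⟨w, hw⟩ := hsurj LinearMap.id
  exact projective_of_phi hw

/-- regular elements of the ring are regular on syzygies of positive order -/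
theorem regular_of_isSyz {N : Type} [AddCommGroup N] [Module R N] (n : ℕ) :
    ∀ (M : Type) [AddCommGroup M] [Module R M], IsSyz R N (n + 1) M →
      ∀ x : R, IsSMulRegular R x → IsSMulRegular N x := by
  induction n with
  | zero =>
    intro M _ _ h x hx a b hab
    obtain ⟨m, π, hπ, ⟨e⟩⟩ := h
    apply e.symm.injective
    refine Subtype.ext (funext fun i => hx ?_)
    have h1 : x • e.symm a = x • e.symm b := by
      rw [← map_smul, ← map_smul]
      exact congrArg e.symm hab
    exact congrFun (congrArg Subtype.val h1) i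
  | succ n ih =>
    intro M _ _ h x hx
    obtain ⟨m, π, hπ, h3⟩ := h
    exact ih _ h3 x hx

/-- Proof. Let `N` be a syzygy of `M` of order `xs.length + 1` (`exists_isSyz`); it satisfies the
Ext conditions (`ext_of_isSyz`), `xs` is weakly regular on `N` (`weaklyRegular_of_isSyz`), and `N`
is a submodule of a finite free module, so `htor` holds. `hgen`: `localized_free_of_arc`,
`exists_of_free_localized`. Then `projective_of_isSyz`, as in the theorem `main` of
`Pool/Agent/Helper43/QH/Main.lean`. -/
theorem arc_of_codim_one [IsNoetherianRing R] [IsLocalRing R] (xs : List R)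
    (hreg : IsRegular R xs) (hI : IsGorIdeal (Ideal.ofList xs))
    (h : ∀ (p : Ideal R) [p.IsPrime], (∀ x ∈ p, ∀ y ∈ p, ¬ IsWeaklyRegular R [x, y]) →
      ARC (Localization p.primeCompl)) : ARC R := by
  intro _ M _ _ _ hMR hMM
  have hxm : ∀ x ∈ xs, x ∈ IsLocalRing.maximalIdeal R := by
    intro x hx'
    have h1 : Ideal.ofList xs ≠ ⊤ := by
      intro h
      apply hreg.top_ne_smul
      rw [h, smul_eq_mul, Ideal.top_mul]
    exact IsLocalRing.le_maximalIdeal h1 (Ideal.subset_span hx')
  have hregR : IsWeaklyRegular R xs := hreg.toIsWeaklyRegular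
  obtain ⟨N, _, _, hN⟩ := exists_isSyz (R := R) (xs.length + 1) M
  have hNfin : Module.Finite R N := finite_of_isSyz _ M hN
  obtain ⟨hNR, hNN⟩ := ext_of_isSyz _ M hN hMR hMM
  have hregN := weaklyRegular_of_isSyz hregR (xs.length + 1) (Nat.le_succ _) N M hN
  have htor := regular_of_isSyz xs.length M hN
  have hp : Module.Projective R N := araya_core xs hxm hregR hI N hregN htor hNR hNN
    fun p hp' hpp => exists_of_free_localized p (localized_free_of_arc N p (h p hpp) hNR hNN)
  have hMp : Module.Projective R M := projective_of_isSyz hp _ M hN hMR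
  exact Module.free_of_flat_of_isLocalRing

end

end Pool.Agent.Helper43.QH
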