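import Pool.Agent.Helper43.QH.Fin

set_option autoImplicit false
set_option linter.unusedSectionVars false

/-!
# QA-1: Artinian Gorenstein rings are self-injective

Project QA (MP_c0f807_al): reduction of the Auslander-Reiten conjecture over Gorenstein rings to the
primes of height at most one.
-/

namespace Pool.Agent.Helper43.QH

/-- The ring `R ⧸ I` is Artinian with simple socle. -/
structure IsGorIdeal {R : Type} [CommRing R] [IsLocalRing R] (I : Ideal R) : Prop where
  pow : ∃ n : ℕ, IsLocalRing.maximalIdeal R ^ n ≤ I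
  soc : ∃ s ∉ I, ∀ a : R, (∀ b ∈ IsLocalRing.maximalIdeal R, b * a ∈ I) ↔
    ∃ t : R, a - t * s ∈ I

/-- length of the dual -/
private theorem h86_len_hom {A : Type} [CommRing A] [IsLocalRing A] (s : A)
    (hsoc : ∀ a : A, (∀ b ∈ IsLocalRing.maximalIdeal A, b * a = 0) → ∃ t, a = t * s)
    (hs : ∀ b ∈ IsLocalRing.maximalIdeal A, b * s = 0)
    {V : Type} [AddCommGroup V] [Module A V] (hV : IsFiniteLength A V) :
    Module.length A (V →ₗ[A] A) ≤ Module.length A V := by
  induction hV with
  | @of_subsingleton M _ _ _ =>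
    have h1 : Subsingleton (M →ₗ[A] A) := ⟨fun f g => by
      ext x; rw [Subsingleton.elim x 0, map_zero, map_zero]⟩
    rw [Module.length_eq_zero]
    exact bot_le
  | @of_simple_quotient M _ _ N hsimp hN ih =>
    have hco : IsCoatom N := isSimpleModule_iff_isCoatom.1 hsimp
    obtain ⟨x0, hx0⟩ : ∃ x0 : M, x0 ∉ N := by
      by_contra hcon
      push Not at hcon
      exact hco.1 (eq_top_iff.2 fun x _ => hcon x)
    have hsup : N ⊔ Submodule.span A {x0} = ⊤ := by
      refine hco.2 _ (lt_of_le_of_ne le_sup_left ?_)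
      intro he
      apply hx0
      rw [he]
      exact Submodule.mem_sup_right (Submodule.mem_span_singleton_self x0)
    have hmx : ∀ b ∈ IsLocalRing.maximalIdeal A, b • x0 ∈ N := by
      intro b hb
      by_contra hcon
      have h2 : N ⊔ Submodule.span A {b • x0} = ⊤ := by
        refine hco.2 _ (lt_of_le_of_ne le_sup_left ?_)
        intro he
        apply hcon
        rw [he]
        exact Submodule.mem_sup_right (Submodule.mem_span_singleton_self _)
      have h3 : x0 ∈ N ⊔ Submodule.span A {b • x0} := by rw [h2]; trivial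
      obtain ⟨y, hy, z, hz, hyz⟩ := Submodule.mem_sup.1 h3
      obtain ⟨c, rfl⟩ := Submodule.mem_span_singleton.1 hz
      have h4 : (1 - c * b) • x0 = y := by
        rw [sub_smul, one_smul, mul_smul]
        exact (eq_sub_of_add_eq hyz).symm
      have h5 : IsUnit (1 - c * b) := by
        by_contra h6
        have h7 : (1 - c * b) ∈ IsLocalRing.maximalIdeal A := (IsLocalRing.mem_maximalIdeal _).2 h6
        have h8 : (1 : A) ∈ IsLocalRing.maximalIdeal A := by
          have h9 := Ideal.add_mem _ h7 (Ideal.mul_mem_left _ c hb)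
          rwa [sub_add_cancel] at h9
        exact (Ideal.ne_top_iff_one _).1 (IsLocalRing.maximalIdeal.isMaximal A).ne_top h8
      obtain ⟨u, hu⟩ := h5
      apply hx0
      have h10 : x0 = (↑u⁻¹ : A) • y := by
        rw [← h4, ← hu, smul_smul, Units.inv_mul, one_smul]
      rw [h10]
      exact N.smul_mem _ hy
    -- the restriction map
    let r : (M →ₗ[A] A) →ₗ[A] (N →ₗ[A] A) := LinearMap.lcomp A A N.subtype
    have hr : ∀ g x, r g x = g x := fun g x => rfl
    have hsplit : Module.length A (M →ₗ[A] A) =
        Module.length A (LinearMap.ker r) + Module.length A (LinearMap.range r) :=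
      Module.length_eq_add_of_exact (LinearMap.ker r).subtype r.rangeRestrict
        (Submodule.subtype_injective _) (LinearMap.surjective_rangeRestrict r)
        (by
          rw [LinearMap.exact_iff, LinearMap.ker_rangeRestrict, Submodule.range_subtype])
    have hran : Module.length A (LinearMap.range r) ≤ Module.length A N :=
      (Module.length_le_of_injective (LinearMap.range r).subtype
        (Submodule.subtype_injective _)).trans ih
    let L : (A ⧸ IsLocalRing.maximalIdeal A) →ₗ[A] A :=
      Submodule.liftQ (IsLocalRing.maximalIdeal A) (LinearMap.toSpanSingleton A A s)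
        (by
          intro b hb
          rw [LinearMap.mem_ker, LinearMap.toSpanSingleton_apply, smul_eq_mul]
          exact hs b hb)
    have hL : ∀ t : A, L (Submodule.Quotient.mk t) = t * s := fun t => rfl
    let ev : (LinearMap.ker r) →ₗ[A] (LinearMap.range L) :=
      LinearMap.codRestrict (LinearMap.range L)
        ((LinearMap.applyₗ x0 : (M →ₗ[A] A) →ₗ[A] A).comp (LinearMap.ker r).subtype)
        (by
          rintro ⟨g, hg⟩
          have h1 : ∀ b ∈ IsLocalRing.maximalIdeal A, b * g x0 = 0 := by
            intro b hb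
            have h2 : g (b • x0) = 0 := by
              have h3 := LinearMap.congr_fun (LinearMap.mem_ker.1 hg) ⟨b • x0, hmx b hb⟩
              rw [hr] at h3
              exact h3
            rw [← h2, map_smul, smul_eq_mul]
          obtain ⟨t, ht⟩ := hsoc _ h1
          refine ⟨Submodule.Quotient.mk t, ?_⟩
          rw [hL, ← ht]
          rfl)
    have hev : Function.Injective ev := by
      rw [injective_iff_map_eq_zero]
      rintro ⟨g, hg⟩ h0
      have h1 : g x0 = 0 := congrArg Subtype.val h0
      have h2 : g = 0 := by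
        ext x
        have h3 : x ∈ N ⊔ Submodule.span A {x0} := by rw [hsup]; trivial
        obtain ⟨y, hy, z, hz, rfl⟩ := Submodule.mem_sup.1 h3
        obtain ⟨c, rfl⟩ := Submodule.mem_span_singleton.1 hz
        have h4 := LinearMap.congr_fun (LinearMap.mem_ker.1 hg) ⟨y, hy⟩
        rw [hr] at h4
        rw [map_add, map_smul, h1, smul_zero, add_zero]
        exact h4
      exact Subtype.ext h2
    have hker : Module.length A (LinearMap.ker r) ≤ 1 := by
      have h1 : IsSimpleModule A (A ⧸ IsLocalRing.maximalIdeal A) :=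
        isSimpleModule_iff_isCoatom.2 (IsLocalRing.maximalIdeal.isMaximal A).out
      have h2 : Module.length A (A ⧸ IsLocalRing.maximalIdeal A) = 1 := Module.length_eq_one A _
      rw [← h2]
      exact (Module.length_le_of_injective ev hev).trans
        (Module.length_le_of_surjective L.rangeRestrict (LinearMap.surjective_rangeRestrict L))
    have hM : Module.length A M = Module.length A N + Module.length A (M ⧸ N) :=
      Module.length_eq_add_of_exact N.subtype N.mkQ (Submodule.subtype_injective _)
        (Submodule.mkQ_surjective _) (LinearMap.exact_subtype_mkQ N)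
    have hq : Module.length A (M ⧸ N) = 1 := Module.length_eq_one A _
    rw [hsplit, hM, hq, add_comm]
    exact add_le_add hran hker

/-- self-injectivity -/
private theorem h86_baer {A : Type} [CommRing A] [IsLocalRing A] [IsArtinianRing A] (s : A)
    (hsoc : ∀ a : A, (∀ b ∈ IsLocalRing.maximalIdeal A, b * a = 0) → ∃ t, a = t * s)
    (hs : ∀ b ∈ IsLocalRing.maximalIdeal A, b * s = 0) : Module.Baer A A := by
  have hfin : ∀ (V : Type) [AddCommGroup V] [Module A V] [IsNoetherian A V] [IsArtinian A V],
      IsFiniteLength A V := fun V _ _ _ _ =>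
    isFiniteLength_iff_isNoetherian_isArtinian.2 ⟨inferInstance, inferInstance⟩
  rw [Module.Baer.iff_surjective]
  intro J
  set r : (A →ₗ[A] A) →ₗ[A] (J →ₗ[A] A) := LinearMap.lcomp A A J.subtype with hrdef
  have hr : ∀ g x, r g x = g x := fun g x => rfl
  have hsplit : Module.length A (A →ₗ[A] A) =
      Module.length A (LinearMap.ker r) + Module.length A (LinearMap.range r) :=
    Module.length_eq_add_of_exact (LinearMap.ker r).subtype r.rangeRestrict
      (Submodule.subtype_injective _) (LinearMap.surjective_rangeRestrict r)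
      (by rw [LinearMap.exact_iff, LinearMap.ker_rangeRestrict, Submodule.range_subtype])
  have hAA : Module.length A (A →ₗ[A] A) = Module.length A A :=
    LinearEquiv.length_eq (LinearMap.ringLmapEquivSelf A A A)
  have hA : Module.length A A = Module.length A J + Module.length A (A ⧸ J) :=
    Module.length_eq_add_of_exact J.subtype J.mkQ (Submodule.subtype_injective _)
      (Submodule.mkQ_surjective _) (LinearMap.exact_subtype_mkQ J)
  have hJ1 : IsFiniteLength A J := hfin J
  have hQ1 : IsFiniteLength A (A ⧸ J) := hfin (A ⧸ J)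
  have hJ : Module.length A (J →ₗ[A] A) ≤ Module.length A J := h86_len_hom s hsoc hs hJ1
  have hQ : Module.length A ((A ⧸ J) →ₗ[A] A) ≤ Module.length A (A ⧸ J) :=
    h86_len_hom s hsoc hs hQ1
  have hker : Module.length A (LinearMap.ker r) ≤ Module.length A (A ⧸ J) := by
    refine le_trans ?_ hQ
    let q : (LinearMap.ker r) →ₗ[A] ((A ⧸ J) →ₗ[A] A) :=
      { toFun := fun g => Submodule.liftQ J g.1 (by
          intro x hx
          have h1 := LinearMap.congr_fun (LinearMap.mem_ker.1 g.2) ⟨x, hx⟩
          rw [hr] at h1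
          exact h1)
        map_add' := fun g g' => by
          apply LinearMap.ext
          intro x
          obtain ⟨x, rfl⟩ := Submodule.Quotient.mk_surjective _ x
          rfl
        map_smul' := fun c g => by
          apply LinearMap.ext
          intro x
          obtain ⟨x, rfl⟩ := Submodule.Quotient.mk_surjective _ x
          rfl }
    apply Module.length_le_of_injective q
    intro g g' h
    apply Subtype.ext
    apply LinearMap.ext
    intro x
    exact LinearMap.congr_fun h (Submodule.Quotient.mk x)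
  have hJtop : Module.length A J ≠ ⊤ := Module.length_ne_top_iff.2 hJ1
  have hQtop : Module.length A (A ⧸ J) ≠ ⊤ := Module.length_ne_top_iff.2 hQ1
  have hHtop : Module.length A (J →ₗ[A] A) ≠ ⊤ := ne_top_of_le_ne_top hJtop hJ
  have hHfin := isFiniteLength_iff_isNoetherian_isArtinian.1 (Module.length_ne_top_iff.1 hHtop)
  obtain ⟨hn1, hn2⟩ := hHfin
  have hran : Module.length A J ≤ Module.length A (LinearMap.range r) := by
    have h1 : Module.length A J + Module.length A (A ⧸ J) ≤
        Module.length A (LinearMap.range r) + Module.length A (A ⧸ J) := by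
      rw [← hA, ← hAA, hsplit, add_comm]
      exact add_le_add le_rfl hker
    exact (ENat.add_le_add_iff_right hQtop).1 h1
  have htop : LinearMap.range r = ⊤ := by
    by_contra hne
    have h1 := Submodule.length_lt (R := A) (M := (J →ₗ[A] A)) hne
    exact absurd (hJ.trans hran) (not_le.2 h1)
  exact LinearMap.range_eq_top.1 htop

section

variable {R : Type} [CommRing R] [IsLocalRing R] [IsNoetherianRing R] {I : Ideal R}

private theorem h86_baer_quot (hI : IsGorIdeal I) : Module.Baer (R ⧸ I) (R ⧸ I) := by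
  obtain ⟨n, hn⟩ := hI.pow
  obtain ⟨s, hsI, hsoc⟩ := hI.soc
  have hne : I ≠ ⊤ := fun h => hsI (h ▸ trivial)
  haveI : Nontrivial (R ⧸ I) := Ideal.Quotient.nontrivial_iff.2 hne
  haveI hloc : IsLocalRing (R ⧸ I) :=
    IsLocalRing.of_surjective' (Ideal.Quotient.mk I) Ideal.Quotient.mk_surjective
  have hmap : ∀ b : R, Ideal.Quotient.mk I b ∈ IsLocalRing.maximalIdeal (R ⧸ I) →
      b ∈ IsLocalRing.maximalIdeal R := by
    intro b hb
    rw [IsLocalRing.mem_maximalIdeal] at hb ⊢
    intro hu
    exact hb (hu.map _)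
  have hmap2 : ∀ b ∈ IsLocalRing.maximalIdeal R,
      Ideal.Quotient.mk I b ∈ IsLocalRing.maximalIdeal (R ⧸ I) := by
    intro b hb
    rw [IsLocalRing.mem_maximalIdeal]
    intro hu
    obtain ⟨c, hc⟩ := hu.exists_right_inv
    obtain ⟨c, rfl⟩ := Ideal.Quotient.mk_surjective c
    have h1 : b * c - 1 ∈ I := by
      rw [← Ideal.Quotient.eq_zero_iff_mem, map_sub, map_mul, hc, map_one, sub_self]
    have h2 : b * c - 1 ∈ IsLocalRing.maximalIdeal R := IsLocalRing.le_maximalIdeal hne h1
    have h3 : (1 : R) ∈ IsLocalRing.maximalIdeal R := by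
      have h4 := Ideal.sub_mem _ (Ideal.mul_mem_right c _ hb) h2
      rwa [sub_sub_cancel] at h4
    exact (Ideal.ne_top_iff_one _).1 (IsLocalRing.maximalIdeal.isMaximal R).ne_top h3
  have hnil : IsNilpotent (IsLocalRing.maximalIdeal (R ⧸ I)) := by
    refine ⟨n, ?_⟩
    rw [Ideal.zero_eq_bot, eq_bot_iff]
    have h1 : IsLocalRing.maximalIdeal (R ⧸ I) =
        Ideal.map (Ideal.Quotient.mk I) (IsLocalRing.maximalIdeal R) := by
      apply le_antisymm
      · intro b hb
        obtain ⟨b, rfl⟩ := Ideal.Quotient.mk_surjective b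
        exact Ideal.mem_map_of_mem _ (hmap b hb)
      · rw [Ideal.map_le_iff_le_comap]
        intro b hb
        exact hmap2 b hb
    rw [h1, ← Ideal.map_pow, Ideal.map_le_iff_le_comap]
    intro x hx
    rw [Ideal.mem_comap, Ideal.mem_bot, Ideal.Quotient.eq_zero_iff_mem]
    exact hn hx
  haveI : IsArtinianRing (R ⧸ I) := (isArtinianRing_iff_isNilpotent_maximalIdeal (R ⧸ I)).2 hnil
  refine h86_baer (Ideal.Quotient.mk I s) ?_ ?_
  · intro a ha
    obtain ⟨a, rfl⟩ := Ideal.Quotient.mk_surjective a
    have h1 : ∀ b ∈ IsLocalRing.maximalIdeal R, b * a ∈ I := by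
      intro b hb
      have h2 := ha _ (hmap2 b hb)
      rwa [← map_mul, Ideal.Quotient.eq_zero_iff_mem] at h2
    obtain ⟨t, ht⟩ := (hsoc a).1 h1
    refine ⟨Ideal.Quotient.mk I t, ?_⟩
    rw [← map_mul, ← sub_eq_zero, ← map_sub, Ideal.Quotient.eq_zero_iff_mem]
    exact ht
  · intro b hb
    obtain ⟨b, rfl⟩ := Ideal.Quotient.mk_surjective b
    rw [← map_mul, Ideal.Quotient.eq_zero_iff_mem]
    exact (hsoc s).2 ⟨1, by rw [one_mul, sub_self]; exact I.zero_mem⟩ b (hmap b hb)

/-- extension along injective maps -/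
private theorem h86_extend (hI : IsGorIdeal I) {V W : Type} [AddCommGroup V] [Module R V]
    [AddCommGroup W] [Module R W] (hV : ∀ a ∈ I, ∀ v : V, a • v = 0)
    (i : W →ₗ[R] V) (hi : Function.Injective i) (f : W →ₗ[R] (R ⧸ I)) :
    ∃ g : V →ₗ[R] (R ⧸ I), ∀ w : W, g (i w) = f w := by
  have htV : Module.IsTorsionBySet R V I := fun v a => hV a.1 a.2 v
  have htW : Module.IsTorsionBySet R W I := fun w a => hi (by
    rw [map_zero]
    change i (a.1 • w) = 0
    rw [map_smul]
    exact hV a.1 a.2 _)
  letI : Module (R ⧸ I) V := htV.module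
  letI : Module (R ⧸ I) W := htW.module
  haveI : IsScalarTower R (R ⧸ I) V := htV.isScalarTower
  haveI : IsScalarTower R (R ⧸ I) W := htW.isScalarTower
  have hs : Function.Surjective (algebraMap R (R ⧸ I)) := Ideal.Quotient.mk_surjective
  obtain ⟨g, hg⟩ := (h86_baer_quot hI).extension_property (i.extendScalarsOfSurjective hs) hi
    (f.extendScalarsOfSurjective hs)
  refine ⟨g.restrictScalars R, fun w => ?_⟩
  exact LinearMap.congr_fun hg w

end

section

variable {R : Type} [CommRing R] [IsLocalRing R] [IsNoetherianRing R] {I : Ideal R}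

/-- `R ⧸ I` is injective among the modules killed by `I`. Proof. (1) For every `R`-module `V` of
finite length the length of `Hom_R(V, R ⧸ I)` is at most the length of `V` (`Module.length`;
induction along short exact sequences, left exactness of `Hom`; for `V` simple, `V ≅ R ⧸ m` and
`Hom_R(R ⧸ m, R ⧸ I)` is the socle, which is simple by `soc`). (2) Let `J ⊇ I` be an ideal. Then
`length (R/I) = length Hom(R/I, R/I) = length Hom(R/J, R/I) + length im`, where `im` is the image
of `Hom(R/I, R/I) → Hom(J/I, R/I)`, and by (1) the right hand side is at most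
`length (R/J) + length (J/I) = length (R/I)`. So the restriction
`Hom(R/I, R/I) → Hom(J/I, R/I)` is onto: every map `J/I → R/I` is the multiplication by an element.
(3) Baer's criterion for the ring `R ⧸ I` (`Module.Baer.extension_property` or
`Module.Baer.injective`); `V` is a module over `R ⧸ I` (`Module.IsTorsionBySet.module`), and
`R`-linear maps are `R ⧸ I`-linear (`LinearMap.extendScalarsOfSurjective`). -/
theorem extend_of_gor (hI : IsGorIdeal I) {V : Type} [AddCommGroup V] [Module R V]
    (hV : ∀ a ∈ I, ∀ v : V, a • v = 0) (U : Submodule R V) (f : U →ₗ[R] (R ⧸ I)) :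
    ∃ g : V →ₗ[R] (R ⧸ I), ∀ u : U, g u = f u :=
  h86_extend hI hV U.subtype (Submodule.subtype_injective U) f

/-- Proof. As `m ^ n V = 0` there is `r` with `r v ≠ 0`, `m r v = 0`. The map
`R (r v) → R ⧸ I`, `t r v ↦ t s` (`s` the generator of the socle) is well defined (the annihilator
of `r v` is `m`) and nonzero at `r v`; extend it by `extend_of_gor`. -/
theorem exists_hom_ne_zero (hI : IsGorIdeal I) {V : Type} [AddCommGroup V] [Module R V]
    (hV : ∀ a ∈ I, ∀ v : V, a • v = 0) (v : V) (hv : v ≠ 0) :
    ∃ g : V →ₗ[R] (R ⧸ I), g v ≠ 0 := by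
  classical
  obtain ⟨n, hn⟩ := hI.pow
  obtain ⟨s, hsI, hsoc⟩ := hI.soc
  have hex : ∃ k : ℕ, ∀ a ∈ IsLocalRing.maximalIdeal R ^ k, a • v = 0 :=
    ⟨n, fun a ha => hV a (hn ha) v⟩
  obtain ⟨r, hrv, hmr⟩ : ∃ r : R, r • v ≠ 0 ∧ ∀ b ∈ IsLocalRing.maximalIdeal R,
      b • (r • v) = 0 := by
    have hspec := Nat.find_spec hex
    rcases Nat.eq_zero_or_pos (Nat.find hex) with h0 | h0
    · exfalso
      rw [h0, pow_zero] at hspec
      apply hv
      have h1 := hspec 1 (by rw [Ideal.one_eq_top]; trivial)
      rwa [one_smul] at h1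
    · have hlt : Nat.find hex - 1 < Nat.find hex := Nat.sub_lt h0 one_pos
      have hmin := Nat.find_min hex hlt
      push Not at hmin
      obtain ⟨r, hr, hrv⟩ := hmin
      refine ⟨r, hrv, fun b hb => ?_⟩
      rw [smul_smul]
      apply hspec
      have h2 : Nat.find hex = (Nat.find hex - 1) + 1 := (Nat.sub_add_cancel h0).symm
      rw [h2, pow_succ']
      exact Ideal.mul_mem_mul hb hr
  let i : (R ⧸ IsLocalRing.maximalIdeal R) →ₗ[R] V :=
    Submodule.liftQ (IsLocalRing.maximalIdeal R) (LinearMap.toSpanSingleton R V (r • v))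
      (by
        intro b hb
        rw [LinearMap.mem_ker, LinearMap.toSpanSingleton_apply]
        exact hmr b hb)
  have hiv : ∀ t : R, i (Submodule.Quotient.mk t) = t • (r • v) := fun t => rfl
  have hinj : Function.Injective i := by
    rw [injective_iff_map_eq_zero]
    intro x hx
    obtain ⟨t, rfl⟩ := Submodule.Quotient.mk_surjective _ x
    rw [hiv] at hx
    rw [Submodule.Quotient.mk_eq_zero, IsLocalRing.mem_maximalIdeal]
    rintro ⟨u, rfl⟩
    apply hrv
    have h1 : (↑u⁻¹ : R) • ((u : R) • (r • v)) = 0 := by rw [hx, smul_zero]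
    rwa [smul_smul, Units.inv_mul, one_smul] at h1
  have hs : ∀ b ∈ IsLocalRing.maximalIdeal R, b * s ∈ I :=
    (hsoc s).2 ⟨1, by rw [one_mul, sub_self]; exact I.zero_mem⟩
  let L : (R ⧸ IsLocalRing.maximalIdeal R) →ₗ[R] (R ⧸ I) :=
    Submodule.liftQ (IsLocalRing.maximalIdeal R)
      (LinearMap.toSpanSingleton R (R ⧸ I) (Ideal.Quotient.mk I s))
      (by
        intro b hb
        rw [LinearMap.mem_ker, LinearMap.toSpanSingleton_apply]
        change Ideal.Quotient.mk I (b * s) = 0
        rw [Ideal.Quotient.eq_zero_iff_mem]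
        exact hs b hb)
  have hLv : ∀ t : R, L (Submodule.Quotient.mk t) = t • Ideal.Quotient.mk I s := fun t => rfl
  obtain ⟨g, hg⟩ := h86_extend hI hV i hinj L
  refine ⟨g, fun h0 => ?_⟩
  have h1 := hg (Submodule.Quotient.mk 1)
  rw [hiv, hLv, one_smul, one_smul, map_smul, h0, smul_zero] at h1
  exact hsI (Ideal.Quotient.eq_zero_iff_mem.1 h1.symm)

/-- Biduality. Proof. Let `π : (Fin m → R) → V` be surjective. The map
`V^* = Hom(V, R ⧸ I) → (Fin m → R ⧸ I)`, `g ↦ (g (π e_i))_i` is injective; so `F` is the restriction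
of a map `F' : (Fin m → R ⧸ I) → R ⧸ I` (`extend_of_gor` for the image of `V^*`), and
`F' c = ∑ c_i F' (e_i)`, `F' (e_i) = mk r_i`. Then `F g = g (∑ r_i π e_i)`. -/
theorem bidual_surj (hI : IsGorIdeal I) {V : Type} [AddCommGroup V] [Module R V]
    [Module.Finite R V] (F : (V →ₗ[R] (R ⧸ I)) →ₗ[R] (R ⧸ I)) : ∃ v : V, ∀ g, F g = g v := by
  classical
  obtain ⟨n, π, hπ⟩ := Module.Finite.exists_fin' R V
  let c : (V →ₗ[R] (R ⧸ I)) →ₗ[R] (Fin n → R ⧸ I) :=
    { toFun := fun g j => g (π (Pi.single j 1))
      map_add' := fun g g' => rfl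
      map_smul' := fun a g => rfl }
  have hc : Function.Injective c := by
    intro g g' h
    have h1 : g.comp π = g'.comp π := by
      refine LinearMap.pi_ext' fun j => ?_
      apply LinearMap.ext_ring
      exact congrFun h j
    exact (LinearMap.cancel_right hπ).1 h1
  have hk : ∀ a ∈ I, ∀ w : Fin n → R ⧸ I, a • w = 0 := by
    intro a ha w
    funext j
    obtain ⟨y, hy⟩ := Ideal.Quotient.mk_surjective (w j)
    rw [Pi.smul_apply, ← hy, Pi.zero_apply]
    change Ideal.Quotient.mk I (a * y) = 0
    rw [Ideal.Quotient.eq_zero_iff_mem]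
    exact Ideal.mul_mem_right y _ ha
  obtain ⟨F', hF'⟩ := h86_extend hI hk c hc F
  choose r hr using fun j : Fin n => Ideal.Quotient.mk_surjective (F' (Pi.single j 1))
  refine ⟨∑ j, r j • π (Pi.single j 1), fun g => ?_⟩
  rw [← hF' g, map_sum]
  have h1 : c g = ∑ j, Pi.single j (c g j) := (Finset.univ_sum_single (c g)).symm
  rw [h1, map_sum]
  refine Finset.sum_congr rfl fun j _ => ?_
  rw [map_smul]
  have h2 : c g j = g (π (Pi.single j 1)) := rfl
  rw [h2]
  obtain ⟨y, hy⟩ := Ideal.Quotient.mk_surjective (g (π (Pi.single j 1)))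
  rw [← hy]
  have h3 : (Pi.single j (Ideal.Quotient.mk I y) : Fin n → R ⧸ I) = y • Pi.single j 1 := by
    rw [← Pi.single_smul]
    congr 1
    change Ideal.Quotient.mk I y = Ideal.Quotient.mk I (y * 1)
    rw [mul_one]
  rw [h3, map_smul, ← hr]
  change Ideal.Quotient.mk I (y * r j) = Ideal.Quotient.mk I (r j * y)
  rw [mul_comm]

end

end Pool.Agent.Helper43.QH
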