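import Pool.Agent.Helper43.QH.Tens
import Pool.Agent.Helper43.QA.SelfInj

set_option autoImplicit false
set_option linter.unusedSectionVars false

/-!
# QA-2: the pairing between `M^* ⊗ M` and `End M` modulo a Gorenstein ideal

`XX R M` is `M^* ⊗ M`, `tm f m` a pure tensor, `psi R M z e` is `∑ f_i (e m_i)` for
`z = ∑ f_i ⊗ m_i` (`Pool/Agent/Helper43/QH/Tens.lean`). The file
`Pool/Agent/Helper43/QH/PsiBase.lean` has similar proofs with a field of coefficients.
-/

namespace Pool.Agent.Helper43.QH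

section

variable {R : Type} [CommRing R] [IsLocalRing R] [IsNoetherianRing R] {I : Ideal R}
variable {M : Type} [AddCommGroup M] [Module R M] [Module.Finite R M]

private theorem smul_quot (a : R) (ha : a ∈ I) (x : R ⧸ I) : a • x = 0 := by
  obtain ⟨r, rfl⟩ := Ideal.Quotient.mk_surjective x
  change Ideal.Quotient.mk I (a • r) = 0
  rw [Ideal.Quotient.eq_zero_iff_mem, smul_eq_mul]
  exact I.mul_mem_right _ ha

private theorem smul_quot' {V : Type} [AddCommGroup V] [Module R V] (a : R) (ha : a ∈ I)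
    (x : V ⧸ (I • ⊤ : Submodule R V)) : a • x = 0 := by
  obtain ⟨r, rfl⟩ := Submodule.Quotient.mk_surjective _ x
  rw [← Submodule.Quotient.mk_smul, Submodule.Quotient.mk_eq_zero]
  exact Submodule.smul_mem_smul ha trivial

private theorem kill_quot {V : Type} [AddCommGroup V] [Module R V] (g : V →ₗ[R] (R ⧸ I)) :
    ∀ v ∈ (I • ⊤ : Submodule R V), g v = 0 := by
  intro v hv
  refine Submodule.smul_induction_on (p := fun v => g v = 0) hv ?_ ?_
  · intro r hr n _
    rw [map_smul]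
    exact smul_quot r hr _
  · intro a b ha hb
    rw [map_add, ha, hb, add_zero]

/-- the induced map on the reduction -/
private def ind {V : Type} [AddCommGroup V] [Module R V] (g : V →ₗ[R] (R ⧸ I)) :
    (V ⧸ (I • ⊤ : Submodule R V)) →ₗ[R] (R ⧸ I) :=
  (I • ⊤ : Submodule R V).liftQ g (fun v hv => kill_quot g v hv)

private theorem ind_mk {V : Type} [AddCommGroup V] [Module R V] (g : V →ₗ[R] (R ⧸ I)) (v : V) :
    ind g (Submodule.Quotient.mk v) = g v := rfl

private theorem eq_of_forall (hI : IsGorIdeal I) {V : Type} [AddCommGroup V] [Module R V]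
    {q q' : V ⧸ (I • ⊤ : Submodule R V)}
    (h : ∀ g : (V ⧸ (I • ⊤ : Submodule R V)) →ₗ[R] (R ⧸ I), g q = g q') : q = q' := by
  by_contra hn
  obtain ⟨g, hg⟩ := exists_hom_ne_zero hI (V := V ⧸ (I • ⊤ : Submodule R V))
    (fun a ha v => smul_quot' a ha v) (q - q') (sub_ne_zero.2 hn)
  apply hg
  rw [map_sub, h g, sub_self]

/-- If `f u ∈ I` for all `f ∈ M^*` then `u ∈ I M`. Proof: `exists_hom_ne_zero` for
`V = M ⧸ I M`, and `H1`. -/
theorem mem_of_forall_dual (hI : IsGorIdeal I)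
    (H1 : ∀ f : M →ₗ[R] (R ⧸ I), ∃ g : M →ₗ[R] R, ∀ m, Ideal.Quotient.mk I (g m) = f m)
    (u : M) (hu : ∀ f : M →ₗ[R] R, f u ∈ I) : u ∈ (I • ⊤ : Submodule R M) := by
  rw [← Submodule.Quotient.mk_eq_zero]
  apply eq_of_forall hI
  intro g
  obtain ⟨f, hf⟩ := H1 (g ∘ₗ (I • ⊤ : Submodule R M).mkQ)
  have h1 : g (Submodule.Quotient.mk u) = Ideal.Quotient.mk I (f u) := (hf u).symm
  rw [h1, map_zero, Ideal.Quotient.eq_zero_iff_mem]
  exact hu f

/-- Every homomorphism `g : M^* ⊗ M → R ⧸ I` is `z ↦ mk (psi z e)` for some `e ∈ End M`. Proof.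
Let `V = M ⧸ I M`. For `m ∈ M` the map `f ↦ g (tm f m)`, `M^* → R ⧸ I`, kills `I M^*`, and
`M^* ⧸ I M^* ≅ Hom(V, R ⧸ I)` by `H1`, `H1'`; by `bidual_surj` there is `e' m ∈ V` with
`g (tm f m) = f (e' m)` in `R ⧸ I` for all `f`; it is unique by `mem_of_forall_dual`, so `e'` is a
homomorphism `M → V`, and it lifts to `e` by `H2`. -/
theorem exists_end_gor (hI : IsGorIdeal I)
    (H1 : ∀ f : M →ₗ[R] (R ⧸ I), ∃ g : M →ₗ[R] R, ∀ m, Ideal.Quotient.mk I (g m) = f m)
    (H1' : ∀ g : M →ₗ[R] R, (∀ m, g m ∈ I) → g ∈ (I • ⊤ : Submodule R (M →ₗ[R] R)))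
    (H2 : ∀ f : M →ₗ[R] (M ⧸ (I • ⊤ : Submodule R M)), ∃ g : M →ₗ[R] M,
      ∀ m, Submodule.Quotient.mk (g m) = f m)
    (g : XX R M →ₗ[R] (R ⧸ I)) :
    ∃ e : M →ₗ[R] M, ∀ z, Ideal.Quotient.mk I (psi R M z e) = g z := by
  -- `g (tm f m)` depends only on `f` modulo `I`
  have hg0 : ∀ (m : M) (f : M →ₗ[R] R), (∀ u, f u ∈ I) → g (tm f m) = 0 := by
    intro m f hf
    refine Submodule.smul_induction_on (p := fun f => g (tm f m) = 0) (H1' f hf) ?_ ?_
    · intro r hr n _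
      rw [smul_tm, map_smul]
      exact smul_quot r hr _
    · intro a b ha hb
      rw [add_tm, map_add, ha, hb, add_zero]
  have hgw : ∀ (m : M) (f f' : M →ₗ[R] R),
      (∀ u, Ideal.Quotient.mk I (f u) = Ideal.Quotient.mk I (f' u)) →
      g (tm f m) = g (tm f' m) := by
    intro m f f' h
    have h1 := hg0 m (f - f') (fun u => by
      rw [LinearMap.sub_apply, ← Ideal.Quotient.eq_zero_iff_mem, map_sub, h u, sub_self])
    have h2 : tm f m = tm (f - f') m + tm f' m := by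
      rw [← add_tm, sub_add_cancel]
    rw [h2, map_add, h1, zero_add]
  -- lifts of the functionals on `V = M / I M`
  have hL0 : ∀ φ : (M ⧸ (I • ⊤ : Submodule R M)) →ₗ[R] (R ⧸ I), ∃ f : M →ₗ[R] R,
      ∀ u, Ideal.Quotient.mk I (f u) = φ (Submodule.Quotient.mk u) := by
    intro φ
    obtain ⟨f, hf⟩ := H1 (φ ∘ₗ (I • ⊤ : Submodule R M).mkQ)
    exact ⟨f, hf⟩
  choose L hL using hL0
  have hex : ∀ m : M, ∃ q : M ⧸ (I • ⊤ : Submodule R M),
      ∀ φ : (M ⧸ (I • ⊤ : Submodule R M)) →ₗ[R] (R ⧸ I), g (tm (L φ) m) = φ q := by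
    intro m
    let F : ((M ⧸ (I • ⊤ : Submodule R M)) →ₗ[R] (R ⧸ I)) →ₗ[R] (R ⧸ I) :=
      { toFun := fun φ => g (tm (L φ) m)
        map_add' := fun φ ψ => by
          rw [← map_add, ← add_tm]
          apply hgw
          intro u
          rw [LinearMap.add_apply, map_add, hL, hL, hL, LinearMap.add_apply]
        map_smul' := fun r φ => by
          rw [RingHom.id_apply, ← map_smul, ← smul_tm]
          apply hgw
          intro u
          rw [hL, LinearMap.smul_apply, LinearMap.smul_apply, ← hL]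
          rfl }
    obtain ⟨q, hq⟩ := bidual_surj hI F
    exact ⟨q, hq⟩
  choose e' he' using hex
  let E : M →ₗ[R] (M ⧸ (I • ⊤ : Submodule R M)) :=
    { toFun := e'
      map_add' := fun m n => eq_of_forall hI fun φ => by
        rw [← he', tm_add, map_add, map_add, he', he']
      map_smul' := fun r m => eq_of_forall hI fun φ => by
        rw [← he', RingHom.id_apply, tm_smul, map_smul, map_smul, he'] }
  obtain ⟨e, he⟩ := H2 E
  refine ⟨e, fun z => ?_⟩
  refine XX_induction (P := fun z => Ideal.Quotient.mk I (psi R M z e) = g z) z (by simp)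
    (fun f m => ?_) (fun x y hx hy => ?_)
  · rw [psi_tm]
    let f' : M →ₗ[R] (R ⧸ I) := (Submodule.mkQ I) ∘ₗ f
    have h1 : Ideal.Quotient.mk I (f (e m)) = ind f' (Submodule.Quotient.mk (e m)) := rfl
    have h2 : (Submodule.Quotient.mk (e m) : M ⧸ (I • ⊤ : Submodule R M)) = e' m := he m
    rw [h1, h2, ← he']
    apply hgw
    intro u
    rw [hL]
    rfl
  · rw [map_add, LinearMap.add_apply, map_add, map_add, hx, hy]

/-- Proof: otherwise `exists_hom_ne_zero` for `V = XX R M ⧸ I XX R M` and `exists_end_gor`. -/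
theorem mem_of_psi_gor (hI : IsGorIdeal I)
    (H1 : ∀ f : M →ₗ[R] (R ⧸ I), ∃ g : M →ₗ[R] R, ∀ m, Ideal.Quotient.mk I (g m) = f m)
    (H1' : ∀ g : M →ₗ[R] R, (∀ m, g m ∈ I) → g ∈ (I • ⊤ : Submodule R (M →ₗ[R] R)))
    (H2 : ∀ f : M →ₗ[R] (M ⧸ (I • ⊤ : Submodule R M)), ∃ g : M →ₗ[R] M,
      ∀ m, Submodule.Quotient.mk (g m) = f m)
    (z : XX R M) (hz : ∀ e : M →ₗ[R] M, psi R M z e ∈ I) :
    z ∈ (I • ⊤ : Submodule R (XX R M)) := by
  rw [← Submodule.Quotient.mk_eq_zero]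
  apply eq_of_forall hI
  intro g
  obtain ⟨e, he⟩ := exists_end_gor hI H1 H1' H2 (g ∘ₗ (I • ⊤ : Submodule R (XX R M)).mkQ)
  have h1 : g (Submodule.Quotient.mk z) = Ideal.Quotient.mk I (psi R M z e) := (he z).symm
  rw [h1, map_zero, Ideal.Quotient.eq_zero_iff_mem]
  exact hz e

/-- Proof. Let `V = End M ⧸ I End M` and `V^* = Hom(V, R ⧸ I) = Hom(End M, R ⧸ I)`, and let
`W ⊆ V^*` be the submodule of the maps `e ↦ mk (psi z e)`. If `g ∉ W` then `exists_hom_ne_zero` for
`V^* ⧸ W` gives `F : V^* → R ⧸ I` with `F W = 0`, `F g ≠ 0`. By `bidual_surj` `F` is the evaluation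
at some `e ∈ End M`. So `f (e m) ∈ I` for all `f`, `m` (`z = tm f m`), hence `e m ∈ I M` by
`mem_of_forall_dual`, so `e ∈ I End M` by `H2'` and `F = 0`. -/
theorem surj_of_psi_gor (hI : IsGorIdeal I)
    (H1 : ∀ f : M →ₗ[R] (R ⧸ I), ∃ g : M →ₗ[R] R, ∀ m, Ideal.Quotient.mk I (g m) = f m)
    (H2' : ∀ g : M →ₗ[R] M, (∀ m, g m ∈ (I • ⊤ : Submodule R M)) →
      g ∈ (I • ⊤ : Submodule R (M →ₗ[R] M)))
    (g : (M →ₗ[R] M) →ₗ[R] (R ⧸ I)) :
    ∃ z : XX R M, ∀ e, Ideal.Quotient.mk I (psi R M z e) = g e := by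
  let Φ : XX R M →ₗ[R]
      (((M →ₗ[R] M) ⧸ (I • ⊤ : Submodule R (M →ₗ[R] M))) →ₗ[R] (R ⧸ I)) :=
    { toFun := fun z => ind ((Submodule.mkQ I) ∘ₗ (psi R M z))
      map_add' := fun z z' => by
        apply LinearMap.ext
        intro q
        obtain ⟨e, rfl⟩ := Submodule.Quotient.mk_surjective _ q
        change Submodule.mkQ I (psi R M (z + z') e) =
          Submodule.mkQ I (psi R M z e) + Submodule.mkQ I (psi R M z' e)
        rw [map_add, LinearMap.add_apply, map_add]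
      map_smul' := fun r z => by
        apply LinearMap.ext
        intro q
        obtain ⟨e, rfl⟩ := Submodule.Quotient.mk_surjective _ q
        change Submodule.mkQ I (psi R M (r • z) e) = r • Submodule.mkQ I (psi R M z e)
        rw [map_smul, LinearMap.smul_apply, map_smul] }
  have hΦ : ∀ z e, Φ z (Submodule.Quotient.mk e) = Ideal.Quotient.mk I (psi R M z e) :=
    fun _ _ => rfl
  have hmem : ind g ∈ LinearMap.range Φ := by
    by_contra hn
    have hne : (Submodule.Quotient.mk (ind g) :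
        (((M →ₗ[R] M) ⧸ (I • ⊤ : Submodule R (M →ₗ[R] M))) →ₗ[R] (R ⧸ I)) ⧸
          LinearMap.range Φ) ≠ 0 := by
      rw [Ne, Submodule.Quotient.mk_eq_zero]
      exact hn
    obtain ⟨h, hh⟩ := exists_hom_ne_zero hI
      (V := (((M →ₗ[R] M) ⧸ (I • ⊤ : Submodule R (M →ₗ[R] M))) →ₗ[R] (R ⧸ I)) ⧸
          LinearMap.range Φ) (fun a ha v => by
        obtain ⟨φ, rfl⟩ := Submodule.Quotient.mk_surjective _ v
        rw [← Submodule.Quotient.mk_smul, Submodule.Quotient.mk_eq_zero]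
        have h1 : a • φ = 0 := by
          apply LinearMap.ext
          intro q
          exact smul_quot a ha _
        rw [h1]
        exact zero_mem _) _ hne
    obtain ⟨v, hv⟩ := bidual_surj hI (h ∘ₗ (LinearMap.range Φ).mkQ)
    obtain ⟨e, rfl⟩ := Submodule.Quotient.mk_surjective _ v
    have h1 : ∀ z, psi R M z e ∈ I := by
      intro z
      rw [← Ideal.Quotient.eq_zero_iff_mem, ← hΦ, ← hv, LinearMap.comp_apply]
      have h2 : (LinearMap.range Φ).mkQ (Φ z) = 0 := by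
        rw [Submodule.mkQ_apply, Submodule.Quotient.mk_eq_zero]
        exact LinearMap.mem_range_self Φ z
      rw [h2, map_zero]
    have h3 : e ∈ (I • ⊤ : Submodule R (M →ₗ[R] M)) := by
      apply H2'
      intro m
      apply mem_of_forall_dual hI H1
      intro f
      have h4 := h1 (tm f m)
      rwa [psi_tm] at h4
    apply hh
    have h5 := hv (ind g)
    rw [(Submodule.Quotient.mk_eq_zero _).2 h3, map_zero] at h5
    exact h5
  obtain ⟨z, hz⟩ := hmem
  refine ⟨z, fun e => ?_⟩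
  rw [← hΦ, hz]
  rfl

end

end Pool.Agent.Helper43.QH
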